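import Pool.Agent.W5h23.RG.Main
import Pool.Agent.W5h23.SF.Main
import Pool.Agent.TH212.PL.L1

set_option autoImplicit false

/-!
Families of small additive energy: values of polynomials, integral parts of smooth functions, convex sequences.
-/

namespace Pool.Agent.W5h23.RG

open Finset Filter Polynomial
open Pool.Agent.W147.PS (ff)

/-- `|q α - p| ≥ c q ^ (-μ)` -/
def Dioph (c μ α : ℝ) : Prop := ∀ q : ℕ, 1 ≤ q → ∀ p : ℤ, c * (q : ℝ) ^ (-μ) ≤ |(q : ℝ) * α - p|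

open Classical in
/-- many pairs with a record gap -/
def Gaps (κ ε : ℝ) (N : ℕ) (α : ℝ) {ι : Type} (A : Finset ι) (v : ι → ℤ) (B : Finset ℕ) : Prop :=
  ∀ (f : ι → ℝ) (g : ℕ → ℝ), (∀ i ∈ A, ∀ b ∈ B, (N : ℝ) ^ ε ≤ f i + α * v i * b + g b) →
    (A.card : ℝ) * B.card * (N : ℝ) ^ (-ε) ≤
      (((A ×ˢ B).filter fun p : ι × ℕ => PrimeFree (f p.1 + α * v p.1 * p.2 + g p.2) (κ * ff N)).card : ℝ)

lemma energy_inj {ι ι' : Type} [Finite ι] (h : ℕ) (v : ι → ℤ) (φ : ι' → ι) (hφ : Function.Injective φ) :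
    energy h (fun i => v (φ i)) ≤ energy h v := by
  unfold energy
  refine Nat.card_le_card_of_injective (fun q => ⟨(fun j => φ (q.1.1 j), fun j => φ (q.1.2 j)), q.2⟩) ?_
  intro a b hab
  have h3 := congrArg Subtype.val hab
  simp only [Prod.mk.injEq] at h3
  apply Subtype.ext
  apply Prod.ext
  · funext j
    exact hφ (congrFun h3.1 j)
  · funext j
    exact hφ (congrFun h3.2 j)

/-- the criterion, for subsets of a type -/
theorem crit (μ ε : ℝ) (hμ : 1 ≤ μ) (hε : 0 < ε) (h : ℕ) (hh : 1 ≤ h) :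
    ∃ κ : ℝ, 0 < κ ∧ ∀ (c : ℝ) (R : ℕ), 0 < c → ∃ N₀ : ℕ, ∀ N : ℕ, N₀ ≤ N → ∀ α : ℝ, Dioph c μ α →
      ∀ (ι : Type) (A : Finset ι) (v : ι → ℤ) (B : Finset ℕ), (∀ i ∈ A, |v i| ≤ R * N) → (∀ b ∈ B, b ≤ N) →
      (energy h (fun i : {i // i ∈ A} => v i) : ℝ) * (N : ℝ) ^ (2 - 1 / μ + ε) ≤ (A.card : ℝ) ^ (2 * h) * B.card →
      Gaps κ ε N α A v B := by
  classical
  obtain ⟨κ, hκ, hm⟩ := main μ ε hμ hε h hh
  refine ⟨κ, hκ, fun c R hc => ?_⟩
  obtain ⟨N₀, h0⟩ := hm c R hc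
  refine ⟨N₀, fun N hN α hα ι A v B hv hB hE f g hpos => ?_⟩
  have key := h0 N hN α hα {i // i ∈ A} (fun i => v i) B (fun i => hv i i.2) hB
    (by rw [Fintype.card_coe]; exact hE) (fun i => f i) g (fun i b hb => hpos i i.2 b hb)
    (((univ : Finset {i // i ∈ A}) ×ˢ B).filter fun p =>
      PrimeFree (f p.1 + α * v p.1 * p.2 + g p.2) (κ * ff N)) (by
        intro i b hb hp
        rw [mem_filter, mem_product]
        exact ⟨⟨mem_univ _, hb⟩, hp⟩)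
  rw [Fintype.card_coe] at key
  refine key.trans (Nat.cast_le.2 ?_)
  apply card_le_card_of_injOn (fun p => ((p.1 : ι), p.2))
  · intro p hp
    rw [mem_coe, mem_filter, mem_product] at hp ⊢
    exact ⟨⟨p.1.2, hp.1.2⟩, hp.2⟩
  · intro p _ p' _ he
    simp only [Prod.mk.injEq] at he
    exact Prod.ext (Subtype.ext he.1) he.2

lemma large (δ C : ℝ) (hδ : 0 < δ) : ∃ N₀ : ℕ, ∀ N : ℕ, N₀ ≤ N → C ≤ (N : ℝ) ^ δ ∧ 1 ≤ N := by
  have h := ((tendsto_rpow_atTop hδ).comp tendsto_natCast_atTop_atTop).eventually_ge_atTop C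
  exact eventually_atTop.1 (h.and (eventually_ge_atTop 1))

lemma Gaps.mono {κ ε ε' : ℝ} {N : ℕ} {α : ℝ} {ι : Type} {A : Finset ι} {v : ι → ℤ} {B : Finset ℕ} (hN : 1 ≤ N)
    (hε : ε' ≤ ε) (h : Gaps κ ε' N α A v B) : Gaps κ ε N α A v B := by
  intro f g hpos
  have hNr : (1 : ℝ) ≤ N := by exact_mod_cast hN
  refine le_trans ?_ (h f g fun i hi b hb => (Real.rpow_le_rpow_of_exponent_le hNr hε).trans (hpos i hi b hb))
  apply mul_le_mul_of_nonneg_left _ (by positivity)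
  exact Real.rpow_le_rpow_of_exponent_le hNr (by linarith)

lemma energy_le_T7 (p M : ℕ) (w : ℕ → ℤ) (S : Finset ℕ) (hS : S ⊆ Finset.Icc 1 M) :
    energy p (fun i : {i // i ∈ S} => w i) ≤ Pool.Agent.H373R2.T7.energy p M w := by
  classical
  unfold energy Pool.Agent.H373R2.T7.energy
  rw [Nat.card_eq_fintype_card, Fintype.card_subtype]
  apply card_le_card_of_injOn (fun q => (fun j => (q.1 j : ℕ), fun j => (q.2 j : ℕ)))
  · intro q hq
    rw [mem_coe, mem_filter] at hq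
    rw [mem_coe, mem_filter, mem_product, Fintype.mem_piFinset, Fintype.mem_piFinset]
    exact ⟨⟨fun j => hS (q.1 j).2, fun j => hS (q.2 j).2⟩, hq.2⟩
  · intro q _ q' _ h2
    simp only [Prod.mk.injEq] at h2
    apply Prod.ext
    · funext j
      exact Subtype.ext (congrFun h2.1 j)
    · funext j
      exact Subtype.ext (congrFun h2.2 j)

/-- values of polynomials -/
theorem gaps_poly (μ ε : ℝ) (hμ : 1 ≤ μ) (hε : 0 < ε) (F : ℤ[X]) (hF : 1 ≤ F.natDegree) :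
    ∃ κ δ : ℝ, 0 < κ ∧ 0 < δ ∧ ∀ c : ℝ, 0 < c → ∃ M₀ : ℕ, ∀ M : ℕ, M₀ ≤ M → ∀ α : ℝ, Dioph c μ α →
      ∀ S : Finset ℕ, S ⊆ Finset.Icc 1 M → (M : ℝ) ^ (1 - δ) ≤ S.card →
      ∀ B : Finset ℕ, (∀ b ∈ B, b ≤ M ^ F.natDegree) → ((M ^ F.natDegree : ℕ) : ℝ) ^ (1 - 1 / μ + ε) ≤ B.card →
      Gaps κ ε (M ^ F.natDegree) α S (fun m => F.eval (m : ℤ)) B := by
  classical
  obtain ⟨p₀, C, hC, hen⟩ := Pool.Agent.TH212.PL.energy_poly' F hF
  -- `p₀` is positive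
  have hp : 1 ≤ p₀ := by
    by_contra hp0
    have hp0' : p₀ = 0 := by omega
    subst hp0'
    obtain ⟨x, hx⟩ := exists_nat_gt C
    have h1 := hen (x + 1) (by omega)
    have h2 : Pool.Agent.H373R2.T7.energy 0 (x + 1) (fun m => F.eval (m : ℤ)) = 1 := by
      unfold Pool.Agent.H373R2.T7.energy
      simp
    rw [h2] at h1
    have h3 : ((x + 1 : ℕ) : ℝ) ≤ ((x + 1 : ℕ) : ℝ) ^ F.natDegree := by
      apply le_self_pow₀ _ (by omega)
      push_cast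
      have : (0 : ℝ) ≤ x := Nat.cast_nonneg x
      linarith
    push_cast at h1 h3
    simp only [one_mul, mul_zero, pow_zero, mul_one] at h1
    linarith
  obtain ⟨κ, hκ, hcr⟩ := crit μ (ε / 2) hμ (by linarith) p₀ hp
  have hp0 : (0 : ℝ) < p₀ := by exact_mod_cast hp
  have hk0 : (1 : ℝ) ≤ F.natDegree := by exact_mod_cast hF
  refine ⟨κ, ε / (8 * p₀), hκ, by positivity, fun c hc => ?_⟩
  obtain ⟨N₀, h0⟩ := hcr c (Pool.Agent.TH212.PL.cf F) hc
  obtain ⟨N₁, h1⟩ := large (ε / 4) C (by linarith)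
  refine ⟨N₀ + N₁ + 1, fun M hM α hα S hS hcard B hB hBc => ?_⟩
  have hM1 : 1 ≤ M := by omega
  have hMN : M ≤ M ^ F.natDegree := Nat.le_self_pow (by omega) M
  have hMr : (1 : ℝ) ≤ M := by exact_mod_cast hM1
  have hM0 : (0 : ℝ) < M := by linarith
  obtain ⟨N, hN⟩ : ∃ N : ℕ, N = M ^ F.natDegree := ⟨_, rfl⟩
  rw [← hN] at hB hBc hMN ⊢
  have hNr' : (N : ℝ) = (M : ℝ) ^ F.natDegree := by rw [hN]; push_cast; rfl
  obtain ⟨hCN, hN1⟩ := h1 N (by omega)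
  have hNr : (1 : ℝ) ≤ N := by exact_mod_cast hN1
  have hN0 : (0 : ℝ) < N := by linarith
  apply Gaps.mono hN1 (show ε / 2 ≤ ε by linarith)
  apply h0 N (by omega) α hα ℕ S _ B _ hB
  · -- the energy
    have e1 := energy_le_T7 p₀ M (fun m => F.eval (m : ℤ)) S hS
    have e2 := hen M hM1
    rw [← hNr'] at e2
    have e3 : (energy p₀ (fun i : {i // i ∈ S} => F.eval (((i : ℕ) : ℤ))) : ℝ) * N ≤ C * (M : ℝ) ^ (2 * p₀) :=
      (mul_le_mul_of_nonneg_right (Nat.cast_le.2 e1) hN0.le).trans e2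
    have e4 : (M : ℝ) ^ (2 * p₀) ≤ (N : ℝ) ^ (ε / 4) * (S.card : ℝ) ^ (2 * p₀) := by
      have t1 : (M : ℝ) ≤ (M : ℝ) ^ (ε / (8 * p₀)) * S.card := by
        calc (M : ℝ) = (M : ℝ) ^ (ε / (8 * p₀)) * (M : ℝ) ^ (1 - ε / (8 * p₀)) := by
              rw [← Real.rpow_add hM0, add_sub_cancel, Real.rpow_one]
          _ ≤ _ := mul_le_mul_of_nonneg_left hcard (by positivity)
      calc (M : ℝ) ^ (2 * p₀) ≤ ((M : ℝ) ^ (ε / (8 * p₀)) * S.card) ^ (2 * p₀) := pow_le_pow_left₀ hM0.le t1 _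
        _ = ((M : ℝ) ^ (ε / (8 * p₀))) ^ (2 * p₀) * (S.card : ℝ) ^ (2 * p₀) := mul_pow _ _ _
        _ = (M : ℝ) ^ (ε / 4) * (S.card : ℝ) ^ (2 * p₀) := by
            rw [← Real.rpow_natCast ((M : ℝ) ^ (ε / (8 * p₀))), ← Real.rpow_mul hM0.le]
            congr 2
            push_cast
            field_simp
            ring
        _ ≤ _ := by
            apply mul_le_mul_of_nonneg_right _ (by positivity)
            exact Real.rpow_le_rpow hM0.le (by exact_mod_cast hMN) (by linarith)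
    calc (energy p₀ (fun i : {i // i ∈ S} => F.eval (((i : ℕ) : ℤ))) : ℝ) * (N : ℝ) ^ (2 - 1 / μ + ε / 2)
        = (energy p₀ (fun i : {i // i ∈ S} => F.eval (((i : ℕ) : ℤ))) : ℝ) * N * (N : ℝ) ^ (1 - 1 / μ + ε / 2) := by
          have : (N : ℝ) ^ (2 - 1 / μ + ε / 2) = N * (N : ℝ) ^ (1 - 1 / μ + ε / 2) := by
            conv_rhs => rw [← Real.rpow_one (N : ℝ), ← Real.rpow_mul hN0.le, one_mul, ← Real.rpow_add hN0]
            congr 1
            ring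
          rw [this]
          ring
      _ ≤ C * (M : ℝ) ^ (2 * p₀) * (N : ℝ) ^ (1 - 1 / μ + ε / 2) := mul_le_mul_of_nonneg_right e3 (by positivity)
      _ ≤ (N : ℝ) ^ (ε / 4) * ((N : ℝ) ^ (ε / 4) * (S.card : ℝ) ^ (2 * p₀)) * (N : ℝ) ^ (1 - 1 / μ + ε / 2) := by
          gcongr
      _ = (S.card : ℝ) ^ (2 * p₀) * (N : ℝ) ^ (1 - 1 / μ + ε) := by
          have : (N : ℝ) ^ (1 - 1 / μ + ε) = (N : ℝ) ^ (ε / 4) * (N : ℝ) ^ (ε / 4) * (N : ℝ) ^ (1 - 1 / μ + ε / 2) := by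
            rw [← Real.rpow_add hN0, ← Real.rpow_add hN0]
            congr 1
            ring
          rw [this]
          ring
      _ ≤ _ := mul_le_mul_of_nonneg_left hBc (by positivity)
  · intro m hm
    have h2 := Finset.mem_Icc.1 (hS hm)
    refine (Pool.Agent.TH212.PL.abs_eval_le F m h2.1).trans ?_
    rw [hN]
    push_cast
    apply mul_le_mul_of_nonneg_left _ (by positivity)
    apply pow_le_pow_left₀ (by positivity)
    exact_mod_cast h2.2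

/-- integral parts of smooth functions -/
theorem gaps_smooth (μ ε : ℝ) (hμ : 1 ≤ μ) (hε : 0 < ε) (Q : ℕ) (c0 C0 : ℝ) (hQ : 1 ≤ Q) (hc0 : 0 < c0) (hC0 : 1 ≤ C0) :
    ∃ κ δ : ℝ, 0 < κ ∧ 0 < δ ∧ ∀ (c : ℝ) (R : ℕ), 0 < c → ∃ N₀ : ℕ, ∀ N : ℕ, N₀ ≤ N → ∀ α : ℝ, Dioph c μ α →
      ∀ (M : ℕ) (A : ℝ) (F : ℝ → ℝ), (N : ℝ) ^ (1 - δ) ≤ A → A ≤ (M : ℝ) ^ Q →
      Pool.Agent.W5h23.SF.Smooth (Q + 2) c0 C0 M A F →
      ∀ S : Finset ℕ, S ⊆ Finset.Ico M (2 * M) → (M : ℝ) ≤ (N : ℝ) ^ δ * S.card → (∀ m ∈ S, |⌊F m⌋| ≤ R * N) →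
      ∀ B : Finset ℕ, (∀ b ∈ B, b ≤ N) → (N : ℝ) ^ (1 - 1 / μ + ε) ≤ B.card →
      Gaps κ ε N α S (fun m => ⌊F m⌋) B := by
  classical
  obtain ⟨p, hp, hen⟩ := Pool.Agent.W5h23.SF.energy_pow Q hQ c0 C0 hc0 hC0
  obtain ⟨κ, hκ, hcr⟩ := crit μ (ε / 2) hμ (by linarith) p hp
  obtain ⟨δ, hδ⟩ : ∃ δ : ℝ, δ = min (ε / (4 * p + 4)) 1 := ⟨_, rfl⟩
  have hδ0 : 0 < δ := by rw [hδ]; positivity
  have hδε : δ * (2 * p + 2) ≤ ε / 2 := by
    have : δ ≤ ε / (4 * p + 4) := by rw [hδ]; exact min_le_left _ _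
    have h2 : δ * (4 * p + 4) ≤ ε := by rwa [le_div_iff₀ (by positivity)] at this
    linarith
  have hδ1 : δ ≤ 1 := by rw [hδ]; exact min_le_right _ _
  refine ⟨κ, δ, hκ, hδ0, fun c R hc => ?_⟩
  obtain ⟨N₀, h0⟩ := hcr c R hc
  obtain ⟨N₁, h1⟩ := hen δ hδ0
  refine ⟨N₀ + N₁ + 1, fun N hN α hα M A F hA hAQ hF S hS hcard hv B hB hBc => ?_⟩
  have hN1 : 1 ≤ N := by omega
  have hNr : (1 : ℝ) ≤ N := by exact_mod_cast hN1
  have hN0 : (0 : ℝ) < N := by linarith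
  have hA1 : 1 ≤ A := (Real.one_le_rpow hNr (by linarith)).trans hA
  have hM : 1 ≤ M := by
    rcases Nat.eq_zero_or_pos M with h | h
    · subst h
      rw [Nat.cast_zero, zero_pow (by omega)] at hAQ
      linarith
    · exact h
  have hNA : (N : ℝ) ≤ (N : ℝ) ^ δ * A := by
    calc (N : ℝ) = (N : ℝ) ^ δ * (N : ℝ) ^ (1 - δ) := by
          rw [← Real.rpow_add hN0, add_sub_cancel, Real.rpow_one]
      _ ≤ _ := mul_le_mul_of_nonneg_left hA (by positivity)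
  have hE := h1 M N A F (by omega) hM hA1 hAQ hNA hF S hS hcard 0
  apply Gaps.mono hN1 (show ε / 2 ≤ ε by linarith)
  apply h0 N (by omega) α hα ℕ S _ B hv hB
  have hE' : (energy p (fun i : {i // i ∈ S} => ⌊F ((i : ℕ) : ℝ)⌋) : ℝ) * N ≤
      (N : ℝ) ^ (δ * (2 * p + 2)) * (S.card : ℝ) ^ (2 * p) := by
    rw [Fintype.card_coe] at hE
    unfold energy
    simpa only [zero_add] using hE
  calc (energy p (fun i : {i // i ∈ S} => ⌊F ((i : ℕ) : ℝ)⌋) : ℝ) * (N : ℝ) ^ (2 - 1 / μ + ε / 2)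
      = (energy p (fun i : {i // i ∈ S} => ⌊F ((i : ℕ) : ℝ)⌋) : ℝ) * N * (N : ℝ) ^ (1 - 1 / μ + ε / 2) := by
        have : (N : ℝ) ^ (2 - 1 / μ + ε / 2) = N * (N : ℝ) ^ (1 - 1 / μ + ε / 2) := by
          conv_rhs => rw [← Real.rpow_one (N : ℝ), ← Real.rpow_mul hN0.le, one_mul, ← Real.rpow_add hN0]
          congr 1
          ring
        rw [this]
        ring
    _ ≤ (N : ℝ) ^ (δ * (2 * p + 2)) * (S.card : ℝ) ^ (2 * p) * (N : ℝ) ^ (1 - 1 / μ + ε / 2) :=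
        mul_le_mul_of_nonneg_right hE' (by positivity)
    _ = (S.card : ℝ) ^ (2 * p) * (N : ℝ) ^ (δ * (2 * p + 2) + (1 - 1 / μ + ε / 2)) := by
        rw [Real.rpow_add hN0 (δ * (2 * p + 2)) (1 - 1 / μ + ε / 2), mul_comm ((N : ℝ) ^ (δ * (2 * p + 2))), mul_assoc]
    _ ≤ (S.card : ℝ) ^ (2 * p) * (N : ℝ) ^ (1 - 1 / μ + ε) := by
        apply mul_le_mul_of_nonneg_left _ (by positivity)
        exact Real.rpow_le_rpow_of_exponent_le hNr (by linarith)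
    _ ≤ _ := mul_le_mul_of_nonneg_left hBc (by positivity)

/-- strictly convex sequences are short -/
lemma convex_len (n K : ℕ) (a : ℕ → ℤ) (ha : Pool.Agent.W5h23.SF.Main.ConvexOrConcave n a) (hb : ∀ i < n, |a i| ≤ K) :
    n ≤ 4 * K + 2 := by
  classical
  by_contra hcon
  have hn : 2 ≤ n := by omega
  have hinj : Set.InjOn (fun i => a (i + 1) - a i) (range (n - 1)) := by
    have key : ∀ i j : ℕ, i < j → j + 1 < n → a (i + 1) - a i ≠ a (j + 1) - a j := by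
      rcases ha with ha | ha
      · have hlt : ∀ i j : ℕ, i < j → j + 1 < n → a (i + 1) - a i < a (j + 1) - a j := by
          intro i j hij hj
          induction j with
          | zero => omega
          | succ j ih =>
            rcases Nat.lt_or_ge i j with h | h
            · exact (ih h (by omega)).trans (ha j (by omega))
            · have : i = j := by omega
              subst this
              exact ha i (by omega)
        exact fun i j hij hj => (hlt i j hij hj).ne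
      · have hlt : ∀ i j : ℕ, i < j → j + 1 < n → a (j + 1) - a j < a (i + 1) - a i := by
          intro i j hij hj
          induction j with
          | zero => omega
          | succ j ih =>
            rcases Nat.lt_or_ge i j with h | h
            · exact (ha j (by omega)).trans (ih h (by omega))
            · have : i = j := by omega
              subst this
              exact ha i (by omega)
        exact fun i j hij hj => (hlt i j hij hj).ne'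
    intro i hi j hj hij
    rw [mem_coe, mem_range] at hi hj
    by_contra hne
    rcases Nat.lt_or_gt_of_ne hne with h | h
    · exact key i j h (by omega) hij
    · exact key j i h (by omega) hij.symm
  have hmaps : ∀ i ∈ range (n - 1), a (i + 1) - a i ∈ Finset.Icc (-(2 * K : ℤ)) (2 * K) := by
    intro i hi
    rw [mem_range] at hi
    have h1 := abs_le.1 (hb i (by omega))
    have h2 := abs_le.1 (hb (i + 1) (by omega))
    rw [Finset.mem_Icc]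
    constructor <;> linarith
  have h3 := card_le_card_of_injOn _ hmaps hinj
  rw [card_range, Int.card_Icc] at h3
  omega

/-- strictly convex or concave sequences -/
theorem gaps_convex (μ ε : ℝ) (hμ : 1 ≤ μ) (hε : 0 < ε) :
    ∃ κ : ℝ, 0 < κ ∧ ∀ (c : ℝ) (R : ℕ), 0 < c → ∃ N₀ : ℕ, ∀ N : ℕ, N₀ ≤ N → ∀ α : ℝ, Dioph c μ α →
      ∀ (n : ℕ) (a : ℕ → ℤ), Pool.Agent.W5h23.SF.Main.ConvexOrConcave n a → (∀ i < n, |a i| ≤ R * N) →
      ∀ B : Finset ℕ, (∀ b ∈ B, b ≤ N) → (N : ℝ) ^ (2 - 1 / μ + ε) ≤ (n : ℝ) ^ 2 * B.card →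
      Gaps κ ε N α (range n) a B := by
  classical
  obtain ⟨p, hp⟩ := exists_pow_lt_of_lt_one (by positivity : (0 : ℝ) < min (ε / 16) 1) (by norm_num : (1 / 2 : ℝ) < 1)
  have hpε : (1 / 2 : ℝ) ^ p ≤ ε / 16 := hp.le.trans (min_le_left _ _)
  have hp1 : (1 / 2 : ℝ) ^ p ≤ 1 := hp.le.trans (min_le_right _ _)
  obtain ⟨κ, hκ, hcr⟩ := crit μ (ε / 2) hμ (by linarith) (p + 1) (by omega)
  refine ⟨κ, hκ, fun c R hc => ?_⟩
  obtain ⟨N₀, h0⟩ := hcr c R hc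
  obtain ⟨N₁, h1⟩ := large (ε / 4) (2304 * (4 * R + 4)) (by linarith)
  refine ⟨N₀ + N₁ + 1, fun N hN α hα n a ha hb B hB hBc => ?_⟩
  obtain ⟨hCN, hN1⟩ := h1 N (by omega)
  have hNr : (1 : ℝ) ≤ N := by exact_mod_cast hN1
  have hN0 : (0 : ℝ) < N := by linarith
  have hn0 : (0 : ℝ) < n := by
    rcases Nat.eq_zero_or_pos n with h | h
    · subst h
      have : (0 : ℝ) < (N : ℝ) ^ (2 - 1 / μ + ε) := by positivity
      rw [Nat.cast_zero, zero_pow (by norm_num), zero_mul] at hBc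
      linarith
    · exact_mod_cast h
  have hn1 : 1 ≤ n := by exact_mod_cast hn0
  have hnN : (n : ℝ) ≤ (4 * R + 4) * N := by
    have h2 := convex_len n (R * N) a ha (fun i hi => by have := hb i hi; push_cast; exact this)
    have h3 : n ≤ (4 * R + 4) * N := by nlinarith
    exact_mod_cast h3
  apply Gaps.mono hN1 (show ε / 2 ≤ ε by linarith)
  apply h0 N (by omega) α hα ℕ (range n) _ B (fun i hi => hb i (mem_range.1 hi)) hB
  rw [card_range]
  -- the energy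
  have e1 : energy (p + 1) (fun i : {i // i ∈ range n} => a i) ≤ Pool.Agent.W5h23.Conv.en n (p + 1) a := by
    have t1 : energy (p + 1) (fun i : Fin n => a i) = Pool.Agent.W5h23.Conv.en n (p + 1) a := by
      unfold energy Pool.Agent.W5h23.Conv.en Pool.Agent.W5h23.Conv.pairs
      rw [Nat.card_eq_fintype_card, Fintype.card_subtype, univ_product_univ]
    rw [← t1]
    exact energy_inj (p + 1) (fun i : Fin n => a i) (fun i : {i // i ∈ range n} => ⟨i, mem_range.1 i.2⟩)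
      (fun i j hij => Subtype.ext (congrArg Fin.val hij))
  have e2 : (Pool.Agent.W5h23.Conv.en n (p + 1) a : ℝ) ≤ 2304 * (n : ℝ) ^ (2 * ((p + 1 : ℕ) : ℝ) - 2 + 2 * (1 / 2) ^ (p + 1)) := by
    rcases ha with ha | ha
    · exact Pool.Agent.W5h23.Conv.en_convex n hn1 a ha (p + 1)
    · rw [← Pool.Agent.W5h23.SF.Main.en_neg]
      exact Pool.Agent.W5h23.Conv.en_convex n hn1 (fun i => -a i) (fun i hi => by
        have := ha i hi
        show -a (i + 1) - -a i < -a (i + 2) - -a (i + 1)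
        linarith) (p + 1)
  obtain ⟨δ, hδ⟩ : ∃ δ : ℝ, δ = (1 / 2) ^ p := ⟨_, rfl⟩
  rw [← hδ] at hpε hp1
  have hδ0 : 0 < δ := by rw [hδ]; positivity
  have e3 : (n : ℝ) ^ (2 * ((p + 1 : ℕ) : ℝ) - 2 + 2 * (1 / 2) ^ (p + 1)) * (n : ℝ) ^ 2 = (n : ℝ) ^ (2 * (p + 1)) * (n : ℝ) ^ δ := by
    rw [← Real.rpow_natCast (n : ℝ) 2, ← Real.rpow_natCast (n : ℝ) (2 * (p + 1)), ← Real.rpow_add hn0, ← Real.rpow_add hn0, hδ]
    congr 1
    push_cast
    rw [pow_succ]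
    ring
  have e4 : 2304 * (n : ℝ) ^ δ ≤ (N : ℝ) ^ (ε / 4) * (N : ℝ) ^ (ε / 16) := by
    have t1 : (n : ℝ) ^ δ ≤ (4 * R + 4) * (N : ℝ) ^ (ε / 16) := by
      calc (n : ℝ) ^ δ ≤ ((4 * R + 4) * N) ^ δ := Real.rpow_le_rpow hn0.le hnN hδ0.le
        _ = (4 * R + 4 : ℝ) ^ δ * (N : ℝ) ^ δ := Real.mul_rpow (by positivity) hN0.le
        _ ≤ (4 * R + 4) * (N : ℝ) ^ (ε / 16) := by
            apply mul_le_mul _ (Real.rpow_le_rpow_of_exponent_le hNr hpε) (by positivity) (by positivity)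
            calc (4 * R + 4 : ℝ) ^ δ ≤ (4 * R + 4 : ℝ) ^ (1 : ℝ) := by
                  apply Real.rpow_le_rpow_of_exponent_le _ hp1
                  have : (0 : ℝ) ≤ R := Nat.cast_nonneg R
                  linarith
              _ = _ := Real.rpow_one _
    calc 2304 * (n : ℝ) ^ δ ≤ 2304 * ((4 * R + 4) * (N : ℝ) ^ (ε / 16)) := mul_le_mul_of_nonneg_left t1 (by norm_num)
      _ = (2304 * (4 * R + 4)) * (N : ℝ) ^ (ε / 16) := by ring
      _ ≤ _ := mul_le_mul_of_nonneg_right hCN (by positivity)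
  have hE : (energy (p + 1) (fun i : {i // i ∈ range n} => a i) : ℝ) ≤
      2304 * (n : ℝ) ^ (2 * ((p + 1 : ℕ) : ℝ) - 2 + 2 * (1 / 2) ^ (p + 1)) := (Nat.cast_le.2 e1).trans e2
  have hn2 : (0 : ℝ) < (n : ℝ) ^ 2 := by positivity
  have e5 : (energy (p + 1) (fun i : {i // i ∈ range n} => a i) : ℝ) * (n : ℝ) ^ 2 ≤
      (n : ℝ) ^ (2 * (p + 1)) * ((N : ℝ) ^ (ε / 4) * (N : ℝ) ^ (ε / 16)) := by
    calc _ ≤ 2304 * (n : ℝ) ^ (2 * ((p + 1 : ℕ) : ℝ) - 2 + 2 * (1 / 2) ^ (p + 1)) * (n : ℝ) ^ 2 :=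
          mul_le_mul_of_nonneg_right hE hn2.le
      _ = (n : ℝ) ^ (2 * (p + 1)) * (2304 * (n : ℝ) ^ δ) := by
          rw [mul_assoc, e3]
          ring
      _ ≤ _ := mul_le_mul_of_nonneg_left e4 (by positivity)
  have e6 : (N : ℝ) ^ (ε / 4) * (N : ℝ) ^ (ε / 16) * (N : ℝ) ^ (2 - 1 / μ + ε / 2) ≤ (n : ℝ) ^ 2 * B.card := by
    refine le_trans ?_ hBc
    rw [← Real.rpow_add hN0, ← Real.rpow_add hN0]
    apply Real.rpow_le_rpow_of_exponent_le hNr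
    linarith
  have e7 : ((energy (p + 1) (fun i : {i // i ∈ range n} => a i) : ℝ) * (N : ℝ) ^ (2 - 1 / μ + ε / 2)) * (n : ℝ) ^ 2 ≤
      ((n : ℝ) ^ (2 * (p + 1)) * B.card) * (n : ℝ) ^ 2 := by
    calc _ = ((energy (p + 1) (fun i : {i // i ∈ range n} => a i) : ℝ) * (n : ℝ) ^ 2) * (N : ℝ) ^ (2 - 1 / μ + ε / 2) := by ring
      _ ≤ ((n : ℝ) ^ (2 * (p + 1)) * ((N : ℝ) ^ (ε / 4) * (N : ℝ) ^ (ε / 16))) * (N : ℝ) ^ (2 - 1 / μ + ε / 2) :=
          mul_le_mul_of_nonneg_right e5 (by positivity)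
      _ = (n : ℝ) ^ (2 * (p + 1)) * ((N : ℝ) ^ (ε / 4) * (N : ℝ) ^ (ε / 16) * (N : ℝ) ^ (2 - 1 / μ + ε / 2)) := by ring
      _ ≤ (n : ℝ) ^ (2 * (p + 1)) * ((n : ℝ) ^ 2 * B.card) := mul_le_mul_of_nonneg_left e6 (by positivity)
      _ = _ := by ring
  exact le_of_mul_le_mul_right e7 hn2

end Pool.Agent.W5h23.RG
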