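import Pool.Agent.W5h23.RG.LS

set_option autoImplicit false

/-!
Bilinear exponential sums with the phases `θ v(i) b + f(i) + g(b)`, bounded by the additive energy of the family `v`
of any order.
-/

namespace Pool.Agent.W5h23.RG

open Finset Filter
open Pool.Agent.H469R2.NK (e norm_e e_add conj_e e_zero)

/-- The additive energy of order `h` of a finite family `v i` (`i ∈ ι`) of integers. -/
noncomputable def energy (h : ℕ) {ι : Type} (v : ι → ℤ) : ℕ :=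
  Nat.card {q : (Fin h → ι) × (Fin h → ι) // ∑ j, v (q.1 j) = ∑ j, v (q.2 j)}

section

variable {ι : Type} [Fintype ι]

/-- the sum over the family -/
noncomputable def V (v : ι → ℤ) (β : ℝ) : ℂ := ∑ i, e (β * v i)

lemma e_sum {κ : Type} (s : Finset κ) (f : κ → ℝ) : e (∑ j ∈ s, f j) = ∏ j ∈ s, e (f j) := by
  classical
  induction s using Finset.induction_on with
  | empty => simp [e_zero]
  | insert a s ha ih => rw [sum_insert ha, prod_insert ha, e_add, ih]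

lemma V_pow (v : ι → ℤ) (h : ℕ) (β : ℝ) : V v β ^ h = ∑ x : Fin h → ι, e (β * ((∑ j, v (x j) : ℤ) : ℝ)) := by
  classical
  unfold V
  rw [← Fin.prod_const, Finset.prod_univ_sum, Fintype.piFinset_univ]
  refine sum_congr rfl fun x _ => ?_
  rw [← e_sum]
  congr 1
  push_cast
  rw [mul_sum]

/-- the number of representations -/
noncomputable def rep (h : ℕ) (v : ι → ℤ) (n : ℤ) : ℕ := by
  classical
  exact (univ.filter fun x : Fin h → ι => ∑ j, v (x j) = n).card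

lemma rep_sq (h H : ℕ) (v : ι → ℤ) (hv : ∀ x : Fin h → ι, |∑ j, v (x j)| ≤ H) :
    ∑ n ∈ Finset.Icc (-(H : ℤ)) H, ((rep h v n : ℕ) : ℝ) ^ 2 = energy h v := by
  classical
  have h1 : energy h v = ∑ n ∈ Finset.Icc (-(H : ℤ)) H, (rep h v n) ^ 2 := by
    unfold energy
    rw [Nat.card_eq_fintype_card, Fintype.card_subtype]
    have hmap : ∀ q ∈ (univ.filter fun q : (Fin h → ι) × (Fin h → ι) => ∑ j, v (q.1 j) = ∑ j, v (q.2 j)),
        (∑ j, v (q.1 j)) ∈ Finset.Icc (-(H : ℤ)) H := by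
      intro q _
      rw [Finset.mem_Icc]
      exact abs_le.1 (hv q.1)
    rw [card_eq_sum_card_fiberwise hmap]
    refine sum_congr rfl fun n _ => ?_
    unfold rep
    rw [sq, ← card_product]
    congr 1
    ext q
    simp only [mem_filter, mem_univ, true_and, mem_product]
    constructor
    · rintro ⟨h2, h3⟩
      exact ⟨h3, by rw [← h2, h3]⟩
    · rintro ⟨h2, h3⟩
      exact ⟨by rw [h2, h3], h2⟩
  rw [h1]
  push_cast
  rfl

lemma V_pow_rep (h H : ℕ) (v : ι → ℤ) (hv : ∀ x : Fin h → ι, |∑ j, v (x j)| ≤ H) (β : ℝ) :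
    V v β ^ h = ∑ n ∈ Finset.Icc (-(H : ℤ)) H, (rep h v n : ℂ) * e (β * n) := by
  classical
  rw [V_pow]
  have hmap : ∀ x ∈ (univ : Finset (Fin h → ι)), (∑ j, v (x j)) ∈ Finset.Icc (-(H : ℤ)) H := by
    intro x _
    rw [Finset.mem_Icc]
    exact abs_le.1 (hv x)
  rw [← sum_fiberwise_of_maps_to hmap]
  refine sum_congr rfl fun n _ => ?_
  unfold rep
  rw [← nsmul_eq_mul, ← sum_const]
  refine sum_congr rfl fun x hx => ?_
  rw [mem_filter] at hx
  rw [hx.2]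

/-- the moment along the differences `b - b₀` -/
lemma moment (h H N : ℕ) (θ G : ℝ) (hG : ∑ d ∈ Finset.Icc 1 N, ‖∑ j ∈ range (2 * H + 1), e (j * (θ * d))‖ ≤ G)
    (v : ι → ℤ) (hv : ∀ x : Fin h → ι, |∑ j, v (x j)| ≤ H)
    (B : Finset ℕ) (hB : ∀ b ∈ B, b ≤ N) (b₀ : ℕ) :
    ∑ b ∈ B, ‖V v (θ * ((b : ℝ) - b₀))‖ ^ (2 * h) ≤ 2 * ((2 * H + 1 : ℕ) + G) * energy h v := by
  have h1 := ls H N θ G hG B hB (fun n => (rep h v n : ℂ) * e (-(θ * b₀ * n)))
  have h2 : ∀ b : ℕ, ‖V v (θ * ((b : ℝ) - b₀))‖ ^ (2 * h) =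
      ‖∑ n ∈ Finset.Icc (-(H : ℤ)) H, (rep h v n : ℂ) * e (-(θ * b₀ * n)) * e (θ * b * n)‖ ^ 2 := by
    intro b
    rw [mul_comm 2 h, pow_mul, ← norm_pow, V_pow_rep h H v hv]
    congr 2
    refine sum_congr rfl fun n _ => ?_
    have e1 : e (θ * ((b : ℝ) - b₀) * n) = e (-(θ * b₀ * n)) * e (θ * b * n) := by
      rw [← e_add]
      congr 1
      ring
    rw [e1]
    ring
  have h3 : ∀ n : ℤ, ‖(rep h v n : ℂ) * e (-(θ * b₀ * n))‖ ^ 2 = ((rep h v n : ℕ) : ℝ) ^ 2 := by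
    intro n
    rw [norm_mul, norm_e, mul_one, Complex.norm_natCast]
  simp only [h3] at h1
  rw [rep_sq h H v hv] at h1
  rw [sum_congr rfl fun b _ => h2 b]
  exact h1

/-- **The bilinear inequality.** -/
theorem bilin (h H N : ℕ) (hh : 1 ≤ h) (θ G : ℝ)
    (hG : ∑ d ∈ Finset.Icc 1 N, ‖∑ j ∈ range (2 * H + 1), e (j * (θ * d))‖ ≤ G)
    (v : ι → ℤ) (hv : ∀ x : Fin h → ι, |∑ j, v (x j)| ≤ H)
    (B : Finset ℕ) (hB : ∀ b ∈ B, b ≤ N) (f : ι → ℝ) (g : ℕ → ℝ) :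
    ‖∑ i, ∑ b ∈ B, e (f i + θ * v i * b + g b)‖ ^ (4 * h) ≤
      (Fintype.card ι : ℝ) ^ (2 * h) * (B.card : ℝ) ^ (4 * h - 1) * (2 * ((2 * H + 1 : ℕ) + G) * energy h v) := by
  classical
  set S : ℂ := ∑ i, ∑ b ∈ B, e (f i + θ * v i * b + g b) with hS
  set T : ℝ := ∑ b₀ ∈ B, ∑ b ∈ B, ‖V v (θ * ((b : ℝ) - b₀))‖ with hT
  have hT0 : 0 ≤ T := sum_nonneg fun _ _ => sum_nonneg fun _ _ => norm_nonneg _
  -- Cauchy and Schwarz
  have h1 : ‖S‖ ^ 2 ≤ (Fintype.card ι : ℝ) * T := by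
    have e1 : ‖S‖ ≤ ∑ i, 1 * ‖∑ b ∈ B, e (θ * v i * b + g b)‖ := by
      rw [hS]
      refine (norm_sum_le _ _).trans (sum_le_sum fun i _ => ?_)
      have e2 : ∑ b ∈ B, e (f i + θ * v i * b + g b) = e (f i) * ∑ b ∈ B, e (θ * v i * b + g b) := by
        rw [mul_sum]
        refine sum_congr rfl fun b _ => ?_
        rw [← e_add]
        congr 1
        ring
      rw [e2, norm_mul, norm_e]
    have e3 : ‖S‖ ^ 2 ≤ (∑ _i : ι, (1 : ℝ) ^ 2) * ∑ i, ‖∑ b ∈ B, e (θ * v i * b + g b)‖ ^ 2 :=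
      (pow_le_pow_left₀ (norm_nonneg _) e1 2).trans (sum_mul_sq_le_sq_mul_sq _ _ _)
    have e4 : (∑ _i : ι, (1 : ℝ) ^ 2) = Fintype.card ι := by simp
    rw [e4] at e3
    refine e3.trans (mul_le_mul_of_nonneg_left ?_ (Nat.cast_nonneg _))
    have e5 : ((∑ i, ‖∑ b ∈ B, e (θ * v i * b + g b)‖ ^ 2 : ℝ) : ℂ) =
        ∑ b₀ ∈ B, ∑ b ∈ B, e (g b - g b₀) * V v (θ * ((b : ℝ) - b₀)) := by
      push_cast
      have e6 : ∀ i : ι, ((‖∑ b ∈ B, e (θ * v i * b + g b)‖ : ℂ)) ^ 2 =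
          ∑ b ∈ B, ∑ b₀ ∈ B, e (g b - g b₀) * e (θ * ((b : ℝ) - b₀) * v i) := by
        intro i
        rw [← Complex.mul_conj', map_sum, sum_mul_sum]
        refine sum_congr rfl fun b _ => sum_congr rfl fun b₀ _ => ?_
        rw [conj_e, ← e_add, ← e_add]
        congr 1
        ring
      rw [sum_congr rfl fun i _ => e6 i, sum_comm]
      have e7 : ∀ b ∈ B, ∑ i : ι, ∑ b₀ ∈ B, e (g b - g b₀) * e (θ * ((b : ℝ) - b₀) * v i) =
          ∑ b₀ ∈ B, e (g b - g b₀) * V v (θ * ((b : ℝ) - b₀)) := by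
        intro b _
        rw [sum_comm]
        refine sum_congr rfl fun b₀ _ => ?_
        rw [← mul_sum]
        rfl
      rw [sum_congr rfl e7, sum_comm]
    have e8 : ∑ i, ‖∑ b ∈ B, e (θ * v i * b + g b)‖ ^ 2 =
        ‖((∑ i, ‖∑ b ∈ B, e (θ * v i * b + g b)‖ ^ 2 : ℝ) : ℂ)‖ := by
      rw [Complex.norm_real, Real.norm_eq_abs, abs_of_nonneg (by positivity)]
    rw [e8, e5]
    refine (norm_sum_le _ _).trans (sum_le_sum fun b₀ _ => (norm_sum_le _ _).trans (sum_le_sum fun b _ => ?_))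
    rw [norm_mul, norm_e, one_mul]
  -- the power mean
  have h2 : T ^ (2 * h) ≤ ((B.card : ℝ) ^ 2) ^ (2 * h - 1) * (B.card * (2 * ((2 * H + 1 : ℕ) + G) * energy h v)) := by
    have e1 : T = ∑ p ∈ B ×ˢ B, ‖V v (θ * ((p.2 : ℝ) - p.1))‖ := by
      rw [hT, sum_product]
    have e2 := pow_sum_div_card_le_sum_pow (s := B ×ˢ B) (f := fun p : ℕ × ℕ => ‖V v (θ * ((p.2 : ℝ) - p.1))‖)
      (fun _ _ => norm_nonneg _) (2 * h - 1)
    rw [← e1, show 2 * h - 1 + 1 = 2 * h by omega, card_product, sum_product] at e2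
    have e3 : ∑ b₀ ∈ B, ∑ b ∈ B, ‖V v (θ * ((b : ℝ) - b₀))‖ ^ (2 * h) ≤
        B.card * (2 * ((2 * H + 1 : ℕ) + G) * energy h v) := by
      calc _ ≤ ∑ b₀ ∈ B, (2 * ((2 * H + 1 : ℕ) + G) * energy h v) :=
            sum_le_sum fun b₀ _ => moment h H N θ G hG v hv B hB b₀
        _ = _ := by rw [sum_const, nsmul_eq_mul]
    rcases Nat.eq_zero_or_pos B.card with h0 | h0
    · have hB0 : B = ∅ := card_eq_zero.1 h0
      have hT' : T = 0 := by rw [hT, hB0, sum_empty]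
      have hG0 : 0 ≤ G := le_trans (sum_nonneg fun _ _ => norm_nonneg _) hG
      rw [hT', zero_pow (by omega)]
      positivity
    · have h0' : (0 : ℝ) < B.card := by exact_mod_cast h0
      rw [div_le_iff₀ (by positivity)] at e2
      refine (e2.trans (mul_le_mul_of_nonneg_right e3 (by positivity))).trans (le_of_eq ?_)
      push_cast
      ring
  calc ‖S‖ ^ (4 * h) = (‖S‖ ^ 2) ^ (2 * h) := by rw [← pow_mul]; congr 1; omega
    _ ≤ ((Fintype.card ι : ℝ) * T) ^ (2 * h) := pow_le_pow_left₀ (by positivity) h1 _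
    _ = (Fintype.card ι : ℝ) ^ (2 * h) * T ^ (2 * h) := mul_pow _ _ _
    _ ≤ (Fintype.card ι : ℝ) ^ (2 * h) * (((B.card : ℝ) ^ 2) ^ (2 * h - 1) *
          (B.card * (2 * ((2 * H + 1 : ℕ) + G) * energy h v))) := mul_le_mul_of_nonneg_left h2 (by positivity)
    _ = _ := by
        have e1 : ((B.card : ℝ) ^ 2) ^ (2 * h - 1) * B.card = (B.card : ℝ) ^ (4 * h - 1) := by
          rw [← pow_mul, ← pow_succ]
          congr 1
          omega
        rw [← e1]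
        ring

end

end Pool.Agent.W5h23.RG
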