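import Pool.Agent.TH668.Bil.Main
import Pool.Agent.Y565.RG.Count

set_option autoImplicit false

/-!
A large sieve for the points `θ b` modulo one, `b` in an arbitrary set of natural numbers, and bilinear sums with the
additive energy of any order.
-/

namespace Pool.Agent.W5h23.RG

open Finset Filter
open Pool.Agent.H469R2.NK (e norm_e e_add conj_e e_zero)

/-- the geometric sums -/
noncomputable def ker (H : ℕ) (β : ℝ) : ℝ := ‖∑ j ∈ range (2 * H + 1), e (j * β)‖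

lemma ker_nonneg (H : ℕ) (β : ℝ) : 0 ≤ ker H β := norm_nonneg _

lemma ker_neg (H : ℕ) (β : ℝ) : ker H (-β) = ker H β := by
  unfold ker
  have h : ∑ j ∈ range (2 * H + 1), e (j * -β) = (starRingEnd ℂ) (∑ j ∈ range (2 * H + 1), e (j * β)) := by
    rw [map_sum]
    refine sum_congr rfl fun j _ => ?_
    rw [conj_e, mul_neg]
  rw [h, RCLike.norm_conj]

lemma ker_zero (H : ℕ) : ker H 0 ≤ (2 * H + 1 : ℕ) := by
  unfold ker
  refine (norm_sum_le _ _).trans (le_of_eq ?_)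
  simp only [norm_e]
  rw [sum_const, card_range, nsmul_eq_mul, mul_one]

lemma sum_Icc_ker (H : ℕ) (β : ℝ) : ‖∑ n ∈ Finset.Icc (-(H : ℤ)) H, e (n * β)‖ = ker H β := by
  have h1 : ∑ n ∈ Finset.Icc (-(H : ℤ)) H, e (n * β) = ∑ j ∈ range (2 * H + 1), e (-(H * β)) * e (j * β) := by
    symm
    apply sum_bij (fun (j : ℕ) _ => (j : ℤ) - H)
    · intro j hj
      rw [mem_range] at hj
      rw [Finset.mem_Icc]
      constructor <;> omega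
    · intro j _ j' _ h
      omega
    · intro n hn
      rw [Finset.mem_Icc] at hn
      refine ⟨(n + H).toNat, ?_, ?_⟩
      · rw [mem_range]
        omega
      · omega
    · intro j _
      rw [← e_add]
      congr 1
      push_cast
      ring
  rw [h1, ← mul_sum, norm_mul, norm_e, one_mul]
  rfl

lemma krow (H N : ℕ) (θ G : ℝ) (hG : ∑ d ∈ Finset.Icc 1 N, ‖∑ j ∈ range (2 * H + 1), e (j * (θ * d))‖ ≤ G)
    (B : Finset ℕ) (hB : ∀ b ∈ B, b ≤ N) (b : ℕ) (hb : b ≤ N) :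
    ∑ b' ∈ B, ker H (θ * ((b : ℝ) - b')) ≤ 2 * ((2 * H + 1 : ℕ) + G) := by
  classical
  have h1 : B ⊆ range (N + 1) := by
    intro b' hb'
    rw [mem_range]
    have := hB b' hb'
    omega
  obtain ⟨Gf, hGf⟩ : ∃ Gf : ℕ → ℝ, ∀ d, Gf d = ker H (θ * d) := ⟨fun d => ker H (θ * d), fun _ => rfl⟩
  have hGf0 : ∀ d, 0 ≤ Gf d := fun d => by rw [hGf]; exact ker_nonneg _ _
  have h2 : ∀ b' ∈ range (N + 1), ker H (θ * ((b : ℝ) - b')) = (if b' ≤ b then Gf (b - b') else Gf (b' - b)) := by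
    intro b' _
    split_ifs with h
    · rw [hGf, Nat.cast_sub h]
    · rw [hGf, Nat.cast_sub (by omega), ← ker_neg]
      congr 1
      ring
  have h3 := Pool.Agent.TH668.Bil.dist_sum Gf hGf0 N b hb
  have h4 : ∑ d ∈ range (N + 1), Gf d = Gf 0 + ∑ d ∈ Finset.Icc 1 N, Gf d := by
    rw [sum_range_succ', add_comm, Finset.range_eq_Ico, Finset.sum_Ico_add' Gf 0 N 1]
    congr 1
  have h5 : Gf 0 ≤ (2 * H + 1 : ℕ) := by
    rw [hGf, Nat.cast_zero, mul_zero]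
    exact ker_zero H
  have h6 : ∑ d ∈ Finset.Icc 1 N, Gf d ≤ G := by
    refine le_trans (le_of_eq (sum_congr rfl fun d _ => ?_)) hG
    rw [hGf]
    rfl
  calc ∑ b' ∈ B, ker H (θ * ((b : ℝ) - b')) ≤ ∑ b' ∈ range (N + 1), ker H (θ * ((b : ℝ) - b')) :=
        sum_le_sum_of_subset_of_nonneg h1 fun _ _ _ => ker_nonneg _ _
    _ = ∑ b' ∈ range (N + 1), (if b' ≤ b then Gf (b - b') else Gf (b' - b)) := sum_congr rfl h2
    _ ≤ 2 * ∑ d ∈ range (N + 1), Gf d := h3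
    _ ≤ 2 * ((2 * H + 1 : ℕ) + G) := by
        rw [h4]
        linarith

/-- the dual inequality -/
lemma dual (H N : ℕ) (θ G : ℝ) (hG : ∑ d ∈ Finset.Icc 1 N, ‖∑ j ∈ range (2 * H + 1), e (j * (θ * d))‖ ≤ G)
    (B : Finset ℕ) (hB : ∀ b ∈ B, b ≤ N) (c : ℕ → ℂ) :
    ∑ n ∈ Finset.Icc (-(H : ℤ)) H, ‖∑ b ∈ B, c b * e (θ * b * n)‖ ^ 2 ≤ 2 * ((2 * H + 1 : ℕ) + G) * ∑ b ∈ B, ‖c b‖ ^ 2 := by
  have h1 : ((∑ n ∈ Finset.Icc (-(H : ℤ)) H, ‖∑ b ∈ B, c b * e (θ * b * n)‖ ^ 2 : ℝ) : ℂ) =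
      ∑ b ∈ B, ∑ b' ∈ B, c b * (starRingEnd ℂ) (c b') * ∑ n ∈ Finset.Icc (-(H : ℤ)) H, e (n * (θ * ((b : ℝ) - b'))) := by
    push_cast
    have e1 : ∀ n : ℤ, ((‖∑ b ∈ B, c b * e (θ * b * n)‖ : ℂ)) ^ 2 =
        ∑ b ∈ B, ∑ b' ∈ B, c b * (starRingEnd ℂ) (c b') * e (n * (θ * ((b : ℝ) - b'))) := by
      intro n
      rw [← Complex.mul_conj', map_sum, sum_mul_sum]
      refine sum_congr rfl fun b _ => sum_congr rfl fun b' _ => ?_
      rw [map_mul, conj_e]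
      have : e (n * (θ * ((b : ℝ) - b'))) = e (θ * b * n) * e (-(θ * b' * n)) := by
        rw [← e_add]
        congr 1
        ring
      rw [this]
      ring
    rw [sum_congr rfl fun n _ => e1 n, sum_comm]
    refine sum_congr rfl fun b _ => ?_
    rw [sum_comm]
    refine sum_congr rfl fun b' _ => ?_
    rw [mul_sum]
  have h2 : ∑ n ∈ Finset.Icc (-(H : ℤ)) H, ‖∑ b ∈ B, c b * e (θ * b * n)‖ ^ 2 ≤
      ∑ b ∈ B, ∑ b' ∈ B, ‖c b‖ * ‖c b'‖ * ker H (θ * ((b : ℝ) - b')) := by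
    have h3 : ∑ n ∈ Finset.Icc (-(H : ℤ)) H, ‖∑ b ∈ B, c b * e (θ * b * n)‖ ^ 2 =
        ‖((∑ n ∈ Finset.Icc (-(H : ℤ)) H, ‖∑ b ∈ B, c b * e (θ * b * n)‖ ^ 2 : ℝ) : ℂ)‖ := by
      rw [Complex.norm_real, Real.norm_eq_abs, abs_of_nonneg (by positivity)]
    rw [h3, h1]
    refine (norm_sum_le _ _).trans (sum_le_sum fun b _ => (norm_sum_le _ _).trans (sum_le_sum fun b' _ => ?_))
    rw [norm_mul, norm_mul, RCLike.norm_conj, sum_Icc_ker]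
  refine h2.trans ?_
  have h4 : ∀ b ∈ B, ∀ b' ∈ B, ‖c b‖ * ‖c b'‖ * ker H (θ * ((b : ℝ) - b')) ≤
      1 / 2 * (‖c b‖ ^ 2 * ker H (θ * ((b : ℝ) - b'))) + 1 / 2 * (‖c b'‖ ^ 2 * ker H (θ * ((b' : ℝ) - b))) := by
    intro b _ b' _
    have e1 : ker H (θ * ((b' : ℝ) - b)) = ker H (θ * ((b : ℝ) - b')) := by
      rw [← ker_neg]
      congr 1
      ring
    rw [e1]
    have h5 := ker_nonneg H (θ * ((b : ℝ) - b'))
    nlinarith [mul_nonneg (sq_nonneg (‖c b‖ - ‖c b'‖)) h5]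
  calc ∑ b ∈ B, ∑ b' ∈ B, ‖c b‖ * ‖c b'‖ * ker H (θ * ((b : ℝ) - b')) ≤
      ∑ b ∈ B, ∑ b' ∈ B, (1 / 2 * (‖c b‖ ^ 2 * ker H (θ * ((b : ℝ) - b'))) +
        1 / 2 * (‖c b'‖ ^ 2 * ker H (θ * ((b' : ℝ) - b)))) :=
        sum_le_sum fun b hb => sum_le_sum fun b' hb' => h4 b hb b' hb'
    _ = ∑ b ∈ B, ‖c b‖ ^ 2 * ∑ b' ∈ B, ker H (θ * ((b : ℝ) - b')) := by
        have e2 : ∑ b ∈ B, ∑ b' ∈ B, 1 / 2 * (‖c b'‖ ^ 2 * ker H (θ * ((b' : ℝ) - b))) =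
            ∑ b ∈ B, ∑ b' ∈ B, 1 / 2 * (‖c b‖ ^ 2 * ker H (θ * ((b : ℝ) - b'))) := by
          rw [sum_comm]
        simp only [sum_add_distrib]
        rw [e2, ← sum_add_distrib]
        refine sum_congr rfl fun b _ => ?_
        rw [← sum_add_distrib, mul_sum]
        refine sum_congr rfl fun b' _ => ?_
        ring
    _ ≤ ∑ b ∈ B, ‖c b‖ ^ 2 * (2 * ((2 * H + 1 : ℕ) + G)) :=
        sum_le_sum fun b hb => mul_le_mul_of_nonneg_left (krow H N θ G hG B hB b (hB b hb)) (by positivity)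
    _ = _ := by rw [← sum_mul]; ring

/-- the large sieve -/
lemma ls (H N : ℕ) (θ G : ℝ) (hG : ∑ d ∈ Finset.Icc 1 N, ‖∑ j ∈ range (2 * H + 1), e (j * (θ * d))‖ ≤ G)
    (B : Finset ℕ) (hB : ∀ b ∈ B, b ≤ N) (a : ℤ → ℂ) :
    ∑ b ∈ B, ‖∑ n ∈ Finset.Icc (-(H : ℤ)) H, a n * e (θ * b * n)‖ ^ 2 ≤
      2 * ((2 * H + 1 : ℕ) + G) * ∑ n ∈ Finset.Icc (-(H : ℤ)) H, ‖a n‖ ^ 2 := by
  set F : ℕ → ℂ := fun b => ∑ n ∈ Finset.Icc (-(H : ℤ)) H, a n * e (θ * b * n) with hF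
  set K : ℝ := 2 * ((2 * H + 1 : ℕ) + G) with hK
  set T : ℝ := ∑ b ∈ B, ‖F b‖ ^ 2 with hT
  set R : ℝ := ∑ n ∈ Finset.Icc (-(H : ℤ)) H, ‖a n‖ ^ 2 with hR
  have hT0 : 0 ≤ T := sum_nonneg fun _ _ => by positivity
  have hR0 : 0 ≤ R := sum_nonneg fun _ _ => by positivity
  have hG0 : 0 ≤ G := le_trans (sum_nonneg fun _ _ => norm_nonneg _) hG
  have hK0 : 0 ≤ K := by rw [hK]; positivity
  have h1 : (T : ℂ) = ∑ n ∈ Finset.Icc (-(H : ℤ)) H, a n * ∑ b ∈ B, (starRingEnd ℂ) (F b) * e (θ * b * n) := by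
    rw [hT]
    push_cast
    have e1 : ∀ b ∈ B, ((‖F b‖ : ℂ)) ^ 2 = ∑ n ∈ Finset.Icc (-(H : ℤ)) H, a n * ((starRingEnd ℂ) (F b) * e (θ * b * n)) := by
      intro b _
      rw [← Complex.mul_conj']
      conv_lhs => rw [hF]
      simp only
      rw [sum_mul]
      refine sum_congr rfl fun n _ => ?_
      ring
    rw [sum_congr rfl e1, sum_comm]
    refine sum_congr rfl fun n _ => ?_
    rw [mul_sum]
  have h2 : T ≤ ∑ n ∈ Finset.Icc (-(H : ℤ)) H, ‖a n‖ * ‖∑ b ∈ B, (starRingEnd ℂ) (F b) * e (θ * b * n)‖ := by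
    have h3 : T = ‖(T : ℂ)‖ := by rw [Complex.norm_real, Real.norm_eq_abs, abs_of_nonneg hT0]
    rw [h3, h1]
    refine (norm_sum_le _ _).trans (le_of_eq (sum_congr rfl fun n _ => norm_mul _ _))
  have h3 : T ^ 2 ≤ R * (K * T) := by
    calc T ^ 2 ≤ (∑ n ∈ Finset.Icc (-(H : ℤ)) H, ‖a n‖ * ‖∑ b ∈ B, (starRingEnd ℂ) (F b) * e (θ * b * n)‖) ^ 2 :=
          pow_le_pow_left₀ hT0 h2 2
      _ ≤ R * ∑ n ∈ Finset.Icc (-(H : ℤ)) H, ‖∑ b ∈ B, (starRingEnd ℂ) (F b) * e (θ * b * n)‖ ^ 2 :=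
          sum_mul_sq_le_sq_mul_sq _ _ _
      _ ≤ R * (K * T) := by
          apply mul_le_mul_of_nonneg_left _ hR0
          have h4 := dual H N θ G hG B hB (fun b => (starRingEnd ℂ) (F b))
          simpa only [RCLike.norm_conj] using h4
  rcases eq_or_lt_of_le hT0 with h | h
  · rw [← h]
    positivity
  · have h5 : T * T ≤ K * R * T := by nlinarith
    exact le_of_mul_le_mul_right h5 h

end Pool.Agent.W5h23.RG
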