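import Pool.Agent.W5h23.RG.En

set_option autoImplicit false

/-!
Record prime gaps around `f(i) + α v(i) b + g(b)`, the family `v` of small additive energy of some order.
The first lemma is a form of a lemma of `Pool.Agent.TH668.Bil.Main` (starting library).
-/

namespace Pool.Agent.W5h23.RG

open Finset Filter
open Pool.Agent.TH915.PW
open Pool.Agent.TH668.Bil (full_sum)
open Pool.Agent.H469R2.NK (e norm_e e_add conj_e)
open Pool.Agent.W147.PS (ff ev_pow)

/-- bound for the sum of geometric sums -/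
lemma F_bound (μ η c : ℝ) (D : ℕ) (hμ : 1 ≤ μ) (hη : 0 < η) (hc : 0 < c) :
    ∀ᶠ N : ℕ in atTop, ∀ α : ℝ,
      (∀ q : ℕ, 1 ≤ q → ∀ p : ℤ, c * (q : ℝ) ^ (-μ) ≤ |(q : ℝ) * α - p|) →
      ∀ q h : ℕ, 1 ≤ q → (q : ℝ) ≤ (N : ℝ) ^ η → 1 ≤ h → (h : ℝ) ≤ (N : ℝ) ^ (4 * η) →
      ∀ n : ℕ, n ≤ D * N → ∑ d ∈ Finset.Icc 1 N, ‖∑ j ∈ range n, e (j * ((h : ℝ) / q * α * d))‖ ≤
        (N : ℝ) ^ (2 - 1 / μ + (4 * μ + 3) * η) := by
  have hμ0 : 0 < μ := by linarith
  set ν : ℝ := 1 + η + 4 * η * μ with hν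
  have hν0 : 0 < ν := by positivity
  have hμi : 0 < 1 / μ := by positivity
  have hμ1 : 1 / μ ≤ 1 := by
    rw [div_le_one hμ0]
    exact hμ
  -- logarithm
  have hlog : ∀ᶠ N : ℝ in atTop, 1 + Real.log (1 / (c * N ^ (-ν))) ≤ N ^ η := by
    have h1 : Tendsto (fun N : ℝ => Real.log N / N ^ η) atTop (nhds 0) :=
      (isLittleO_log_rpow_atTop hη).tendsto_div_nhds_zero
    have h2 : ∀ᶠ N : ℝ in atTop, Real.log N / N ^ η < 1 / (4 * ν) :=
      h1.eventually (gt_mem_nhds (by positivity))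
    filter_upwards [h2, eventually_ge_atTop (1 : ℝ),
      (tendsto_rpow_atTop hη).eventually_ge_atTop (2 * (1 + Real.log (1 / c)))] with N hN hN1 hN3
    have hN0 : 0 < N := by linarith
    have hNη : 0 < N ^ η := by positivity
    rw [div_lt_iff₀ hNη] at hN
    have e1 : Real.log (1 / (c * N ^ (-ν))) = Real.log (1 / c) + ν * Real.log N := by
      rw [one_div, Real.log_inv, Real.log_mul hc.ne' (by positivity), Real.log_rpow hN0, one_div,
        Real.log_inv]
      ring
    rw [e1]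
    have e2 : ν * Real.log N ≤ N ^ η / 4 := by
      have := mul_lt_mul_of_pos_left hN hν0
      have e3 : ν * (1 / (4 * ν) * N ^ η) = N ^ η / 4 := by field_simp
      linarith
    linarith
  have hlogN := tendsto_natCast_atTop_atTop (R := ℝ) |>.eventually hlog
  have hlim : ∀ s : ℝ, 0 < s → Tendsto (fun N : ℕ => (N : ℝ) ^ s) atTop atTop := fun s hs =>
    (tendsto_rpow_atTop hs).comp tendsto_natCast_atTop_atTop
  filter_upwards [hlogN, eventually_ge_atTop 1,
    (hlim η hη).eventually_ge_atTop (3 * (2 * (D + 2 / c))),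
    (hlim (1 / μ) hμi).eventually_ge_atTop 2] with N hlg hN1 hNη hN2
  intro α hα q h hq hqN hh hhN n hn
  have hNr : (1 : ℝ) ≤ N := by exact_mod_cast hN1
  have hN0 : (0 : ℝ) < N := by linarith
  set δ : ℝ := c * (N : ℝ) ^ (-ν) with hδ
  have hδ0 : 0 < δ := by positivity
  set K : ℕ := ⌊(N : ℝ) ^ (1 / μ)⌋₊ with hK
  have hKup : (K : ℝ) ≤ (N : ℝ) ^ (1 / μ) := Nat.floor_le (by positivity)
  have hKlow : (N : ℝ) ^ (1 / μ) / 2 ≤ K := by
    have := Nat.lt_floor_add_one ((N : ℝ) ^ (1 / μ))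
    linarith
  have hK0 : (0 : ℝ) < K := by linarith
  have hK1 : 1 ≤ K := by exact_mod_cast hK0
  have hq0 : (0 : ℝ) < q := by exact_mod_cast hq
  have hh0 : (0 : ℝ) < h := by exact_mod_cast hh
  have hsep : ∀ k : ℕ, 1 ≤ k → k < K → ∀ m : ℤ, δ ≤ |(h : ℝ) / q * α * k - m| := by
    intro k hk1 hkK m
    have hk0 : (0 : ℝ) < k := by exact_mod_cast hk1
    have h1 := hα (h * k) (Nat.one_le_iff_ne_zero.mpr (by positivity)) (q * m)
    have e1 : |(h : ℝ) / q * α * k - m| = |((h * k : ℕ) : ℝ) * α - ((q * m : ℤ) : ℝ)| / q := by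
      rw [eq_div_iff hq0.ne', ← abs_of_pos hq0, ← abs_mul, abs_of_pos hq0]
      congr 1
      push_cast
      field_simp
    rw [e1, le_div_iff₀ hq0]
    refine le_trans ?_ h1
    have hkN : (k : ℝ) ≤ (N : ℝ) ^ (1 / μ) := by
      have : (k : ℝ) ≤ K := by exact_mod_cast hkK.le
      linarith
    have h2 : ((h * k : ℕ) : ℝ) ≤ (N : ℝ) ^ (4 * η + 1 / μ) := by
      push_cast
      rw [Real.rpow_add hN0]
      gcongr
    have h3 : (N : ℝ) ^ (-(4 * η * μ + 1)) ≤ ((h * k : ℕ) : ℝ) ^ (-μ) := by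
      calc (N : ℝ) ^ (-(4 * η * μ + 1)) = ((N : ℝ) ^ (4 * η + 1 / μ)) ^ (-μ) := by
            rw [← Real.rpow_mul hN0.le]
            congr 1
            field_simp
        _ ≤ _ := by
            apply Real.rpow_le_rpow_of_nonpos _ h2 (by linarith)
            push_cast
            positivity
    calc δ * q ≤ c * (N : ℝ) ^ (-ν) * (N : ℝ) ^ η := by rw [hδ]; gcongr
      _ = c * (N : ℝ) ^ (-(4 * η * μ + 1)) := by
          rw [mul_assoc, ← Real.rpow_add hN0]
          congr 2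
          rw [hν]
          ring
      _ ≤ _ := by gcongr
  have hfull := full_sum ((h : ℝ) / q * α) K N n hK1 δ hδ0 hsep
  refine hfull.trans ?_
  have h1 : (N : ℝ) / K + 1 ≤ 3 * (N : ℝ) ^ (1 - 1 / μ) := by
    have e1 : (N : ℝ) / K ≤ 2 * (N : ℝ) ^ (1 - 1 / μ) := by
      rw [div_le_iff₀ hK0]
      calc (N : ℝ) = 2 * (N : ℝ) ^ (1 - 1 / μ) * ((N : ℝ) ^ (1 / μ) / 2) := by
            rw [show 2 * (N : ℝ) ^ (1 - 1 / μ) * ((N : ℝ) ^ (1 / μ) / 2) =
              (N : ℝ) ^ (1 - 1 / μ) * (N : ℝ) ^ (1 / μ) by ring, ← Real.rpow_add hN0,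
              sub_add_cancel, Real.rpow_one]
        _ ≤ _ := by gcongr
    have e2 : (1 : ℝ) ≤ (N : ℝ) ^ (1 - 1 / μ) := Real.one_le_rpow hNr (by linarith)
    linarith
  have h2 : 1 + Real.log ⌊1 / δ⌋₊ ≤ (N : ℝ) ^ η := by
    refine le_trans ?_ hlg
    rcases Nat.eq_zero_or_pos ⌊1 / δ⌋₊ with h0 | h0
    · have e3 : 0 ≤ Real.log (1 / δ) := by
        -- `δ ≤ 1` follows from the separation for `k = 1`, or the floor is positive
        by_contra hcon
        rw [not_le] at hcon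
        have hd1 : 1 < δ := by
          by_contra h5
          rw [not_lt] at h5
          have : 0 ≤ Real.log (1 / δ) := Real.log_nonneg (by rw [le_div_iff₀ hδ0]; linarith)
          linarith
        have h6 := hα 1 le_rfl (round α)
        have h7 := abs_sub_round α
        have h8 : c ≤ 1 / 2 := by
          have : c * ((1 : ℕ) : ℝ) ^ (-μ) = c := by simp
          rw [this] at h6
          push_cast at h6
          rw [one_mul] at h6
          linarith
        have h9 : (N : ℝ) ^ (-ν) ≤ 1 := Real.rpow_le_one_of_one_le_of_nonpos hNr (by linarith)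
        have : δ ≤ 1 := by
          rw [hδ]
          nlinarith
        linarith
      rw [h0]
      simp only [Nat.cast_zero, Real.log_zero, add_zero]
      linarith
    · have e4 : Real.log ⌊1 / δ⌋₊ ≤ Real.log (1 / δ) :=
        Real.log_le_log (by exact_mod_cast h0) (Nat.floor_le (by positivity))
      linarith
  have h3 : ((n : ℝ) + 2 / δ * (1 + Real.log ⌊1 / δ⌋₊)) ≤
      (D + 2 / c) * (N : ℝ) ^ (ν + η) := by
    have e1 : (n : ℝ) ≤ D * (N : ℝ) ^ (ν + η) := by
      have hn' : (n : ℝ) ≤ D * N := by exact_mod_cast hn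
      have hD0 : (0 : ℝ) ≤ D := Nat.cast_nonneg D
      have : (N : ℝ) ≤ (N : ℝ) ^ (ν + η) := by
        calc (N : ℝ) = (N : ℝ) ^ (1 : ℝ) := (Real.rpow_one _).symm
          _ ≤ _ := by
            apply Real.rpow_le_rpow_of_exponent_le hNr
            have : 0 ≤ 4 * η * μ := by positivity
            linarith
      exact hn'.trans (mul_le_mul_of_nonneg_left this hD0)
    have e2 : 2 / δ * (1 + Real.log ⌊1 / δ⌋₊) ≤ 2 / c * (N : ℝ) ^ (ν + η) := by
      calc 2 / δ * (1 + Real.log ⌊1 / δ⌋₊) ≤ 2 / δ * (N : ℝ) ^ η := by gcongr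
        _ = 2 / c * (N : ℝ) ^ (ν + η) := by
            have e5 : (N : ℝ) ^ (ν + η) = (N : ℝ) ^ ν * (N : ℝ) ^ η := Real.rpow_add hN0 ν η
            have e6 : δ = c * ((N : ℝ) ^ ν)⁻¹ := by rw [hδ, Real.rpow_neg hN0.le]
            have e7 : (0 : ℝ) < (N : ℝ) ^ ν := by positivity
            rw [e5, e6]
            generalize (N : ℝ) ^ ν = X at *
            generalize (N : ℝ) ^ η = Y at *
            field_simp
    calc _ ≤ D * (N : ℝ) ^ (ν + η) + 2 / c * (N : ℝ) ^ (ν + η) := add_le_add e1 e2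
      _ = _ := by ring
  have hlog0 : 0 ≤ Real.log ⌊1 / δ⌋₊ := Real.log_natCast_nonneg _
  calc ((N : ℝ) / K + 1) * (2 * ((n : ℝ) + 2 / δ * (1 + Real.log ⌊1 / δ⌋₊))) ≤
      (3 * (N : ℝ) ^ (1 - 1 / μ)) * (2 * ((D + 2 / c) * (N : ℝ) ^ (ν + η))) := by
        apply mul_le_mul h1 _ (by positivity) (by positivity)
        exact mul_le_mul_of_nonneg_left h3 (by norm_num)
    _ = (3 * (2 * (D + 2 / c))) * ((N : ℝ) ^ (1 - 1 / μ) * (N : ℝ) ^ (ν + η)) := by ring
    _ ≤ (N : ℝ) ^ η * ((N : ℝ) ^ (1 - 1 / μ) * (N : ℝ) ^ (ν + η)) := by gcongr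
    _ = (N : ℝ) ^ (2 - 1 / μ + (4 * μ + 3) * η) := by
        rw [← Real.rpow_add hN0, ← Real.rpow_add hN0]
        congr 1
        rw [hν]
        ring


/-- no prime is at distance at most `d` from `x` -/
def PrimeFree (x d : ℝ) : Prop := ∀ q : ℕ, q.Prime → d < |(q : ℝ) - x|

set_option maxHeartbeats 4000000 in
/-- **The criterion.** -/
theorem main (μ ε : ℝ) (hμ : 1 ≤ μ) (hε : 0 < ε) (h : ℕ) (hh : 1 ≤ h) :
    ∃ κ : ℝ, 0 < κ ∧ ∀ (c : ℝ) (R : ℕ), 0 < c → ∃ N₀ : ℕ, ∀ N : ℕ, N₀ ≤ N → ∀ α : ℝ,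
      (∀ q : ℕ, 1 ≤ q → ∀ p : ℤ, c * (q : ℝ) ^ (-μ) ≤ |(q : ℝ) * α - p|) →
      ∀ (ι : Type) [Fintype ι] (v : ι → ℤ) (B : Finset ℕ), (∀ i, |v i| ≤ R * N) → (∀ b ∈ B, b ≤ N) →
      (energy h v : ℝ) * (N : ℝ) ^ (2 - 1 / μ + ε) ≤ (Fintype.card ι : ℝ) ^ (2 * h) * B.card →
      ∀ (f : ι → ℝ) (g : ℕ → ℝ), (∀ i, ∀ b ∈ B, (N : ℝ) ^ ε ≤ f i + α * v i * b + g b) →
      ∀ G : Finset (ι × ℕ), (∀ i, ∀ b ∈ B, PrimeFree (f i + α * v i * b + g b) (κ * ff N) → (i, b) ∈ G) →
        (Fintype.card ι : ℝ) * B.card * (N : ℝ) ^ (-ε) ≤ G.card := by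
  classical
  have hμ0 : 0 < μ := by linarith
  have hμi : 0 < 1 / μ := by positivity
  have hμ1 : 1 / μ ≤ 1 := by
    rw [div_le_one hμ0]
    exact hμ
  set η : ℝ := min ε 1 / (4 * μ + 16 * h + 8 * h + 16) with hη
  have hmin : 0 < min ε 1 := lt_min hε one_pos
  have hh0 : (1 : ℝ) ≤ h := by exact_mod_cast hh
  have hη0 : 0 < η := by positivity
  have hηm : (4 * μ + 16 * h + 8 * h + 16) * η = min ε 1 := by
    rw [hη]
    field_simp
  have hηε : (4 * μ + 16 * h + 8 * h + 16) * η ≤ ε := by rw [hηm]; exact min_le_left _ _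
  have hη1 : (4 * μ + 16 * h + 8 * h + 16) * η ≤ 1 := by rw [hηm]; exact min_le_right _ _
  have hhη : 0 < h * η := by positivity
  have hμη : 0 < μ * η := by positivity
  have hηle : η ≤ ε := by nlinarith
  have hηle1 : η ≤ 1 := by nlinarith
  have h5η : 5 * η ≤ ε := by nlinarith
  obtain ⟨κ, hκ, hcrit⟩ := Pool.Agent.Y565.RG.crit_count η hη0 hηle1
  refine ⟨κ, hκ, fun c R hc => ?_⟩
  have hlim : ∀ s : ℝ, 0 < s → Tendsto (fun N : ℕ => (N : ℝ) ^ s) atTop atTop := fun s hs =>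
    (tendsto_rpow_atTop hs).comp tendsto_natCast_atTop_atTop
  apply eventually_atTop.mp
  filter_upwards [tendsto_natCast_atTop_atTop (R := ℝ) |>.eventually hcrit,
    F_bound μ η c (2 * (h * R) + 1) hμ hη0 hc, eventually_ge_atTop 1,
    (hlim η hη0).eventually_ge_atTop (2 * (2 * (h * R) + 1) + 2),
    (hlim η hη0).eventually_ge_atTop 8] with N hcr hF hN1 hN6 hN8
  intro α hα ι _ v B hv hB hE f g hpos G hG
  have hNr : (1 : ℝ) ≤ N := by exact_mod_cast hN1
  have hN0 : (0 : ℝ) < N := by linarith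
  -- trivial cases
  rcases Nat.eq_zero_or_pos (Fintype.card ι) with hi0 | hi0
  · rw [hi0, Nat.cast_zero, zero_mul, zero_mul]
    positivity
  rcases Nat.eq_zero_or_pos B.card with hb0 | hb0
  · rw [hb0, Nat.cast_zero, mul_zero, zero_mul]
    positivity
  have hI : (0 : ℝ) < Fintype.card ι := by exact_mod_cast hi0
  have hJ : (0 : ℝ) < B.card := by exact_mod_cast hb0
  have hne : ((univ : Finset ι) ×ˢ B).Nonempty := by
    rw [← card_pos, card_product, card_univ]
    positivity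
  obtain ⟨G', hG'1, hG'2, hG'3⟩ := hcr (ι × ℕ) ((univ : Finset ι) ×ˢ B) (fun i => f i.1 + α * v i.1 * i.2 + g i.2)
    hne (by
      rintro ⟨a, b⟩ hab
      rw [mem_product] at hab
      exact (Real.rpow_le_rpow_of_exponent_le hNr hηle).trans (hpos a b hab.2)) (by
      intro q k hq hqN hk hkN
      set θ : ℝ := (k : ℝ) / q * α with hθ
      have e1 : ∑ i ∈ (univ : Finset ι) ×ˢ B, e ((k : ℝ) / q * (f i.1 + α * v i.1 * i.2 + g i.2)) =
          ∑ i, ∑ b ∈ B, e ((k : ℝ) / q * f i + θ * v i * b + (k : ℝ) / q * g b) := by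
        rw [sum_product]
        refine sum_congr rfl fun a _ => sum_congr rfl fun b _ => ?_
        congr 1
        rw [hθ]
        ring
      have hH : 2 * (h * R * N) + 1 ≤ (2 * (h * R) + 1) * N := by nlinarith
      have hGb := hF α hα q k hq hqN hk hkN (2 * (h * R * N) + 1) hH
      have hsv : ∀ x : Fin h → ι, |∑ j, v (x j)| ≤ ((h * R * N : ℕ) : ℤ) := by
        intro x
        refine (abs_sum_le_sum_abs _ _).trans ?_
        refine (sum_le_sum fun j _ => hv (x j)).trans (le_of_eq ?_)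
        rw [sum_const, card_univ, Fintype.card_fin, nsmul_eq_mul]
        push_cast
        ring
      have hbil := bilin h (h * R * N) N hh θ _ hGb v hsv B hB (fun i => (k : ℝ) / q * f i) (fun b => (k : ℝ) / q * g b)
      have hcard : ((((univ : Finset ι) ×ˢ B).card : ℕ) : ℝ) = (Fintype.card ι : ℝ) * B.card := by
        rw [card_product, card_univ]
        push_cast
        rfl
      rw [e1, hcard]
      set I : ℝ := (Fintype.card ι : ℝ) with hIdef
      set J : ℝ := (B.card : ℝ) with hJdef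
      set E : ℝ := (energy h v : ℝ) with hEdef
      have hE0 : 0 ≤ E := Nat.cast_nonneg _
      set X : ℝ := (N : ℝ) ^ (2 - 1 / μ + (4 * μ + 3) * η) with hX
      have hX0 : 0 < X := by positivity
      have hK : 2 * (((2 * (h * R * N) + 1 : ℕ) : ℝ) + X) ≤ (N : ℝ) ^ η * X := by
        have e2 : ((2 * (h * R * N) + 1 : ℕ) : ℝ) ≤ (2 * (h * R) + 1 : ℝ) * X := by
          have e3 : ((2 * (h * R * N) + 1 : ℕ) : ℝ) ≤ (2 * (h * R) + 1 : ℝ) * N := by exact_mod_cast hH
          have e4 : (N : ℝ) ≤ X := by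
            calc (N : ℝ) = (N : ℝ) ^ (1 : ℝ) := (Real.rpow_one _).symm
              _ ≤ _ := by
                apply Real.rpow_le_rpow_of_exponent_le hNr
                have : 0 ≤ (4 * μ + 3) * η := by positivity
                linarith
          exact e3.trans (mul_le_mul_of_nonneg_left e4 (by positivity))
        have e5 : 2 * ((2 * (h * R) + 1 : ℝ) * X + X) = (2 * (2 * (h * R) + 1) + 2) * X := by ring
        calc _ ≤ 2 * ((2 * (h * R) + 1 : ℝ) * X + X) := by linarith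
          _ = (2 * (2 * (h * R) + 1) + 2) * X := e5
          _ ≤ _ := mul_le_mul_of_nonneg_right hN6 hX0.le
      have h2 : ‖∑ i, ∑ b ∈ B, e ((k : ℝ) / q * f i + θ * v i * b + (k : ℝ) / q * g b)‖ ^ (4 * h) ≤
          (I * J * (N : ℝ) ^ (-(4 * η)) / 8) ^ (4 * h) := by
        refine hbil.trans ?_
        have t1 : I ^ (2 * h) * J ^ (4 * h - 1) * (2 * (((2 * (h * R * N) + 1 : ℕ) : ℝ) + X) * E) ≤
            I ^ (2 * h) * J ^ (4 * h - 1) * ((N : ℝ) ^ η * X * E) := by
          apply mul_le_mul_of_nonneg_left _ (by positivity)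
          exact mul_le_mul_of_nonneg_right hK hE0
        refine t1.trans ?_
        -- `X N ^ η = N ^ (2 - 1 / μ + ε) N ^ (- ...)`
        have t2 : (N : ℝ) ^ η * X ≤ (N : ℝ) ^ (2 - 1 / μ + ε) * ((N : ℝ) ^ (-(4 * η)) / 8) ^ (4 * h) := by
          have t3 : ((N : ℝ) ^ (-(5 * η))) ^ (4 * h) ≤ ((N : ℝ) ^ (-(4 * η)) / 8) ^ (4 * h) := by
            apply pow_le_pow_left₀ (by positivity)
            rw [show -(5 * η) = -(4 * η) - η by ring, Real.rpow_sub hN0]
            exact div_le_div_of_nonneg_left (by positivity) (by norm_num) hN8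
          have t4 : ((N : ℝ) ^ (-(5 * η))) ^ (4 * h) = (N : ℝ) ^ (-(20 * h * η)) := by
            rw [← Real.rpow_natCast, ← Real.rpow_mul hN0.le]
            congr 1
            push_cast
            ring
          calc (N : ℝ) ^ η * X = (N : ℝ) ^ (2 - 1 / μ + (4 * μ + 4) * η) := by
                rw [hX, ← Real.rpow_add hN0]
                congr 1
                ring
            _ ≤ (N : ℝ) ^ ((2 - 1 / μ + ε) + (-(20 * h * η))) := by
                apply Real.rpow_le_rpow_of_exponent_le hNr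
                nlinarith
            _ = (N : ℝ) ^ (2 - 1 / μ + ε) * (N : ℝ) ^ (-(20 * h * η)) := Real.rpow_add hN0 _ _
            _ ≤ _ := by
                rw [← t4]
                exact mul_le_mul_of_nonneg_left t3 (by positivity)
        calc I ^ (2 * h) * J ^ (4 * h - 1) * ((N : ℝ) ^ η * X * E) ≤
            I ^ (2 * h) * J ^ (4 * h - 1) * ((N : ℝ) ^ (2 - 1 / μ + ε) * ((N : ℝ) ^ (-(4 * η)) / 8) ^ (4 * h) * E) := by
              apply mul_le_mul_of_nonneg_left _ (by positivity)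
              exact mul_le_mul_of_nonneg_right t2 hE0
          _ = I ^ (2 * h) * J ^ (4 * h - 1) * ((N : ℝ) ^ (-(4 * η)) / 8) ^ (4 * h) * (E * (N : ℝ) ^ (2 - 1 / μ + ε)) := by ring
          _ ≤ I ^ (2 * h) * J ^ (4 * h - 1) * ((N : ℝ) ^ (-(4 * η)) / 8) ^ (4 * h) * (I ^ (2 * h) * J) :=
              mul_le_mul_of_nonneg_left hE (by positivity)
          _ = (I * J * (N : ℝ) ^ (-(4 * η)) / 8) ^ (4 * h) := by
              have a1 : J ^ (4 * h - 1) * J = J ^ (4 * h) := by
                rw [← pow_succ]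
                congr 1
                omega
              have a2 : I ^ (2 * h) * I ^ (2 * h) = I ^ (4 * h) := by
                rw [← pow_add]
                congr 1
                omega
              have a3 : (I * J * (N : ℝ) ^ (-(4 * η)) / 8) ^ (4 * h) =
                  I ^ (4 * h) * J ^ (4 * h) * ((N : ℝ) ^ (-(4 * η)) / 8) ^ (4 * h) := by
                rw [← mul_pow, ← mul_pow]
                congr 1
                ring
              rw [a3, ← a1, ← a2]
              ring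
      exact (pow_le_pow_iff_left₀ (norm_nonneg _) (by positivity) (by omega)).mp h2)
  have hsub : G' ⊆ G := by
    intro p hp
    have h1 := hG'1 hp
    rw [mem_product] at h1
    exact hG p.1 p.2 h1.2 (fun q hq => hG'3 p hp q hq)
  have h3 : (Fintype.card ι : ℝ) * B.card * (N : ℝ) ^ (-ε) ≤ G'.card := by
    refine le_trans ?_ hG'2
    rw [card_product, card_univ]
    push_cast
    have h4 : (N : ℝ) ^ (-ε) ≤ (N : ℝ) ^ (-(4 * η)) / 2 := by
      calc (N : ℝ) ^ (-ε) ≤ (N : ℝ) ^ (-(4 * η) - η) := by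
            apply Real.rpow_le_rpow_of_exponent_le hNr
            linarith
        _ = (N : ℝ) ^ (-(4 * η)) / (N : ℝ) ^ η := Real.rpow_sub hN0 _ _
        _ ≤ _ := by
            apply div_le_div_of_nonneg_left (by positivity) (by norm_num)
            linarith
    calc (Fintype.card ι : ℝ) * B.card * (N : ℝ) ^ (-ε) ≤ (Fintype.card ι : ℝ) * B.card * ((N : ℝ) ^ (-(4 * η)) / 2) := by
          gcongr
      _ = _ := by ring
  exact h3.trans (by exact_mod_cast card_le_card hsub)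

end Pool.Agent.W5h23.RG
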